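import Mathlib

namespace Pool.Agent.Results.MP_9fbb3c_co.Neg

/-- A symmetric BIBD on `v` points with block size `k`: `v` indexed blocks (repeats allowed),
each of size `k`, every pair of distinct points in exactly `lam` blocks. -/
def IsSymBIBD (v k : ℕ) (B : Fin v → Finset (Fin v)) : Prop :=
  2 ≤ k ∧ k < v ∧ (∀ i, (B i).card = k) ∧
    ∃ lam : ℕ, 0 < lam ∧ ∀ x y : Fin v, x ≠ y →
      (Finset.univ.filter fun i => x ∈ B i ∧ y ∈ B i).card = lam

/-- A 0-ULSE colouring with `l` colours: a surjection, `(l-1) ∣ k`, and in each block one colour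
is absent while every other colour occurs exactly `k/(l-1)` times. -/
def IsULSE (v k l : ℕ) (B : Fin v → Finset (Fin v)) (f : Fin v → Fin l) : Prop :=
  Function.Surjective f ∧ (l - 1) ∣ k ∧
    ∀ i, ∃ c : Fin l, ((B i).filter fun x => f x = c).card = 0 ∧
      ∀ c' : Fin l, c' ≠ c → ((B i).filter fun x => f x = c').card = k / (l - 1)

lemma dbl {v : ℕ} (B : Fin v → Finset (Fin v)) (x : Fin v) (T : Finset (Fin v)) :
    ∑ y ∈ T, (Finset.univ.filter fun i => x ∈ B i ∧ y ∈ B i).card
      = ∑ i ∈ Finset.univ.filter (fun i => x ∈ B i), (T.filter fun y => y ∈ B i).card := by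
  simp only [Finset.card_filter]
  rw [Finset.sum_comm, Finset.sum_filter]
  apply Finset.sum_congr rfl
  intro i _
  by_cases h : x ∈ B i <;> simp [h]

def D (i : Fin 16) : Finset (Fin 16) :=
  Finset.univ.filter fun x => ¬ ((x.val / 4 = i.val / 4 ∨ x.val % 4 = i.val % 4) ∧ x ≠ i)

lemma D_ok : IsSymBIBD 16 10 D := by
  refine ⟨by norm_num, by norm_num, by decide +kernel, 6, by norm_num, by decide +kernel⟩

lemma none (B : Fin 16 → Finset (Fin 16)) (hB : IsSymBIBD 16 10 B) (f : Fin 16 → Fin 6)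
    (hf : IsULSE 16 10 6 B f) : False := by
  obtain ⟨_, _, hk, lam, hlam, hp⟩ := hB
  obtain ⟨_, _, hc⟩ := hf
  have key : ∀ (T : Finset (Fin 16)) (m : ℕ), (0 : Fin 16) ∉ T →
      (∀ i, (0 : Fin 16) ∈ B i → (T.filter fun y => y ∈ B i).card = m) →
      T.card * lam = (Finset.univ.filter (fun i => (0 : Fin 16) ∈ B i)).card * m := by
    intro T m h0 hm
    have h := dbl B 0 T
    have a1 : ∑ y ∈ T, (Finset.univ.filter fun i => (0 : Fin 16) ∈ B i ∧ y ∈ B i).card
        = ∑ _y ∈ T, lam :=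
      Finset.sum_congr rfl (fun y hy => hp 0 y (fun e => h0 (e ▸ hy)))
    have a2 : ∑ i ∈ Finset.univ.filter (fun i => (0 : Fin 16) ∈ B i),
        (T.filter fun y => y ∈ B i).card
        = ∑ _i ∈ Finset.univ.filter (fun i => (0 : Fin 16) ∈ B i), m :=
      Finset.sum_congr rfl (fun i hi => hm i (by simpa using hi))
    rw [a1, a2] at h
    simpa using h
  have h1 := key (Finset.univ.erase 0) 9 (by simp) (by
    intro i hi
    have : ((Finset.univ.erase (0 : Fin 16)).filter fun y => y ∈ B i) = (B i).erase 0 := by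
      ext y; simp
    rw [this, Finset.card_erase_of_mem hi, hk i])
  have h2 := key ((Finset.univ.filter fun y => f y = f 0).erase 0) 1 (by simp) (by
    intro i hi
    have e : (((Finset.univ.filter fun y => f y = f 0).erase (0 : Fin 16)).filter
        fun y => y ∈ B i) = ((B i).filter fun y => f y = f 0).erase 0 := by
      ext y; simp; tauto
    have hmem : (0 : Fin 16) ∈ (B i).filter fun y => f y = f 0 := by simp [hi]
    obtain ⟨c, hc0, hc1⟩ := hc i
    have hne : f 0 ≠ c := by
      intro h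
      rw [← h] at hc0
      rw [Finset.card_eq_zero] at hc0
      rw [hc0] at hmem
      simp at hmem
    rw [e, Finset.card_erase_of_mem hmem, hc1 _ hne])
  have h15 : (Finset.univ.erase (0 : Fin 16)).card = 15 := by simp
  rw [h15] at h1
  rw [mul_one] at h2
  rw [← h2] at h1
  have h3 : 15 * lam = (((Finset.univ.filter fun y => f y = f 0).erase 0).card * 9) * lam := by
    rw [h1]; ring
  have h4 := Nat.eq_of_mul_eq_mul_right hlam h3
  omega

theorem result : ∃ v k l : ℕ, 0 < v ∧ 0 < k ∧ 0 < l ∧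
    ((l : ℚ) - 1) ^ 2 - k ≠ 0 ∧
    (v : ℚ) = l * (l - 2) * k / ((l - 1) ^ 2 - k) ∧
    (l - 1) ∣ k ∧
    (∃ B, IsSymBIBD v k B) ∧
    ∀ B, IsSymBIBD v k B → ¬ ∃ f, IsULSE v k l B f := by
  refine ⟨16, 10, 6, by norm_num, by norm_num, by norm_num, by norm_num, by norm_num,
    by norm_num, ⟨D, D_ok⟩, ?_⟩
  rintro B hB ⟨f, hf⟩
  exact none B hB f hf

end Pool.Agent.Results.MP_9fbb3c_co.Neg
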